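import Mathlib

/-!
# A greedy filling scheme for mixing sequences of measure preserving maps
-/

open Filter Topology Set MeasureTheory
open scoped NNReal ENNReal

namespace Pool.Agent.Q210.PR

noncomputable section

variable {Ω : Type*} [MeasurableSpace Ω]

/-- The density of the part stopped at the present step. -/
def qf (W : Measure Ω) (θ : Ω → Ω) (s : (Ω → ℝ≥0∞) × Measure Ω) : Ω → ℝ≥0∞ := fun z =>
  min (s.1 z) (s.2.rnDeriv W (θ z))

/-- The mass it brings to the target. -/
def nuf (W : Measure Ω) (θ : Ω → Ω) (s : (Ω → ℝ≥0∞) × Measure Ω) : Measure Ω :=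
  (W.withDensity (qf W θ s)).map θ

/-- One step of the scheme. -/
def stp (W : Measure Ω) (θ : Ω → Ω) (s : (Ω → ℝ≥0∞) × Measure Ω) : (Ω → ℝ≥0∞) × Measure Ω :=
  (fun z => s.1 z - qf W θ s z, s.2 - nuf W θ s)

/-- The scheme. -/
def seq (W : Measure Ω) (θ : ℕ → Ω → Ω) (μ : Measure Ω) : ℕ → (Ω → ℝ≥0∞) × Measure Ω
  | 0 => (fun _ => 1, μ)
  | n + 1 => stp W (θ n) (seq W θ μ n)

theorem fill {W : Measure Ω} [IsProbabilityMeasure W] {θ : ℕ → Ω → Ω}
    (hθ : ∀ n, MeasurePreserving (θ n) W W)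
    (hmix : ∀ H : Set Ω, MeasurableSet H → ∀ R : Set Ω, MeasurableSet R →
      Tendsto (fun n => W.real (R ∩ θ n ⁻¹' H)) atTop (𝓝 (W.real R * W.real H)))
    {μ : Measure Ω} [IsProbabilityMeasure μ] (hμ : μ ≪ W) :
    ∃ q : ℕ → Ω → ℝ≥0∞, (∀ n, Measurable (q n)) ∧ (∀ᵐ z ∂W, ∑' n, q n z = 1) ∧
      Measure.sum (fun n => (W.withDensity (q n)).map (θ n)) = μ := by
  set s := seq W θ μ with hs
  have hs0 : s 0 = (fun _ => 1, μ) := rfl
  have hs1 : ∀ n, s (n + 1) = stp W (θ n) (s n) := fun _ => rfl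
  -- invariants
  have hinv : ∀ n, Measurable (s n).1 ∧ (∀ z, (s n).1 z ≤ 1) ∧ (s n).2 ≤ μ := by
    intro n
    induction n with
    | zero => rw [hs0]; exact ⟨measurable_const, fun _ => le_rfl, le_rfl⟩
    | succ n ih =>
      obtain ⟨h1, h2, h3⟩ := ih
      rw [hs1]
      have hq : Measurable (qf W (θ n) (s n)) :=
        h1.min ((Measure.measurable_rnDeriv _ _).comp (hθ n).measurable)
      exact ⟨h1.sub hq, fun z => tsub_le_self.trans (h2 z), Measure.sub_le.trans h3⟩
  set q : ℕ → Ω → ℝ≥0∞ := fun n => qf W (θ n) (s n) with hqdef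
  set ν : ℕ → Measure Ω := fun n => nuf W (θ n) (s n) with hνdef
  have hq : ∀ n, Measurable (q n) := fun n =>
    (hinv n).1.min ((Measure.measurable_rnDeriv _ _).comp (hθ n).measurable)
  have hqr : ∀ n z, q n z ≤ (s n).1 z := fun n z => min_le_left _ _
  have hac : ∀ n, (s n).2 ≪ W := fun n => (Measure.absolutelyContinuous_of_le (hinv n).2.2).trans hμ
  have hfin : ∀ n, IsFiniteMeasure (s n).2 := fun n => isFiniteMeasure_of_le μ (hinv n).2.2
  have hwd : ∀ n, W.withDensity ((s n).2.rnDeriv W) = (s n).2 := fun n =>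
    Measure.withDensity_rnDeriv_eq _ _ (hac n)
  have hνle : ∀ n, ν n ≤ (s n).2 := by
    intro n
    refine Measure.le_iff.mpr fun S hS => ?_
    show ((W.withDensity (q n)).map (θ n)) S ≤ _
    rw [Measure.map_apply (hθ n).measurable hS, withDensity_apply _ ((hθ n).measurable hS)]
    calc ∫⁻ z in θ n ⁻¹' S, q n z ∂W ≤ ∫⁻ z in θ n ⁻¹' S, (s n).2.rnDeriv W (θ n z) ∂W :=
          lintegral_mono fun z => min_le_right _ _
      _ = ∫⁻ z in S, (s n).2.rnDeriv W z ∂W :=
          (hθ n).setLIntegral_comp_preimage hS (Measure.measurable_rnDeriv _ _)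
      _ = (s n).2 S := by
          conv_rhs => rw [← hwd n]
          rw [withDensity_apply _ hS]
  have hνfin : ∀ n, IsFiniteMeasure (ν n) := fun n => isFiniteMeasure_of_le _ (hνle n)
  have hrstep : ∀ n z, (s (n + 1)).1 z + q n z = (s n).1 z := fun n z => by
    rw [hs1]; exact tsub_add_cancel_of_le (hqr n z)
  have hmstep : ∀ n, (s (n + 1)).2 + ν n = (s n).2 := fun n => by
    rw [hs1]; exact Measure.sub_add_cancel_of_le (hνle n)
  have hrsum : ∀ n z, ∑ k ∈ Finset.range n, q k z + (s n).1 z = 1 := by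
    intro n z
    induction n with
    | zero => rw [hs0]; simp
    | succ n ih => rw [Finset.sum_range_succ, add_assoc, add_comm (q n z), hrstep, ih]
  have hmsum : ∀ n (S : Set Ω), MeasurableSet S → ∑ k ∈ Finset.range n, ν k S + (s n).2 S = μ S := by
    intro n S hS
    induction n with
    | zero => rw [hs0]; simp
    | succ n ih =>
      have h1 : (s (n + 1)).2 S + ν n S = (s n).2 S := by
        conv_rhs => rw [← hmstep n]
        rw [Measure.add_apply]
      rw [Finset.sum_range_succ, add_assoc, add_comm (ν n S), h1, ih]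
  -- limits
  have hqle : ∀ z, ∑' n, q n z ≤ 1 := by
    intro z
    refine ENNReal.tsum_le_of_sum_range_le fun n => ?_
    rw [← hrsum n z]
    exact le_self_add
  have hrn : ∀ n z, 1 - ∑' k, q k z ≤ (s n).1 z := by
    intro n z
    rw [tsub_le_iff_right]
    calc (1 : ℝ≥0∞) = ∑ k ∈ Finset.range n, q k z + (s n).1 z := (hrsum n z).symm
      _ ≤ ∑' k, q k z + (s n).1 z := add_le_add_left (ENNReal.sum_le_tsum _) _
      _ = _ := add_comm _ _
  have hsumle : Measure.sum ν ≤ μ := by
    refine Measure.le_iff.mpr fun S hS => ?_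
    rw [Measure.sum_apply _ hS]
    refine ENNReal.tsum_le_of_sum_range_le fun n => ?_
    rw [← hmsum n S hS]
    exact le_self_add
  have hsumfin : IsFiniteMeasure (Measure.sum ν) := isFiniteMeasure_of_le μ hsumle
  set m : Measure Ω := μ - Measure.sum ν with hm
  have hmadd : m + Measure.sum ν = μ := Measure.sub_add_cancel_of_le hsumle
  have hmle : ∀ n, m ≤ (s n).2 := by
    intro n
    refine Measure.le_iff.mpr fun S hS => ?_
    have h1 : m S + ∑' k, ν k S = μ S := by
      rw [← Measure.sum_apply _ hS, ← Measure.add_apply, hmadd]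
    have h2 := hmsum n S hS
    have h3 : m S + ∑ k ∈ Finset.range n, ν k S ≤ (s n).2 S + ∑ k ∈ Finset.range n, ν k S := by
      rw [add_comm ((s n).2 S), h2, ← h1]
      exact add_le_add_right (ENNReal.sum_le_tsum _) _
    have h4 : ∑ k ∈ Finset.range n, ν k S ≠ ∞ := by
      refine ne_top_of_le_ne_top (measure_ne_top μ S) ?_
      rw [← h2]; exact le_self_add
    exact (ENNReal.add_le_add_iff_right h4).mp h3
  have hmac : m ≪ W := (Measure.absolutelyContinuous_of_le (hmle 0)).trans (hac 0)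
  have hmfin : IsFiniteMeasure m := isFiniteMeasure_of_le μ (hmle 0)
  have hmwd : W.withDensity (m.rnDeriv W) = m := Measure.withDensity_rnDeriv_eq _ _ hmac
  have hden : ∀ n, m.rnDeriv W ≤ᵐ[W] (s n).2.rnDeriv W := by
    intro n
    refine ae_le_of_forall_setLIntegral_le_of_sigmaFinite (Measure.measurable_rnDeriv _ _)
      fun S hS _ => ?_
    rw [← withDensity_apply _ hS, ← withDensity_apply _ hS, hmwd, hwd n]
    exact hmle n S
  -- masses
  have hνmass : ∀ n, ν n univ = ∫⁻ z, q n z ∂W := by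
    intro n
    show ((W.withDensity (q n)).map (θ n)) univ = _
    rw [Measure.map_apply (hθ n).measurable MeasurableSet.univ, preimage_univ,
      withDensity_apply _ MeasurableSet.univ, setLIntegral_univ]
  have hmass : m univ + ∫⁻ z, ∑' n, q n z ∂W = 1 := by
    rw [lintegral_tsum fun n => (hq n).aemeasurable]
    have h1 : ∑' n, ∫⁻ z, q n z ∂W = Measure.sum ν univ := by
      rw [Measure.sum_apply _ MeasurableSet.univ]
      exact tsum_congr fun n => (hνmass n).symm
    rw [h1, ← Measure.add_apply, hmadd, measure_univ]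
  have hqm : Measurable fun z => ∑' n, q n z := Measurable.tsum hq
  -- the residual target vanishes
  have hm0 : m = 0 := by
    by_contra hne
    -- residual source
    have hQ : ∫⁻ z, ∑' n, q n z ∂W < 1 := by
      have h1 : 0 < m univ := by
        rw [pos_iff_ne_zero]; simpa using hne
      by_contra hge
      push Not at hge
      have h2 : m univ + 1 ≤ 0 + 1 := by
        calc m univ + 1 ≤ m univ + ∫⁻ z, ∑' n, q n z ∂W := by gcongr
          _ = 0 + 1 := by rw [hmass, zero_add]
      have h3 := (ENNReal.add_le_add_iff_right ENNReal.one_ne_top).mp h2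
      exact absurd h1 (not_lt.mpr h3)
    have hR : ∃ k : ℕ, 0 < W {z | ((k : ℝ≥0∞) + 1)⁻¹ ≤ 1 - ∑' n, q n z} := by
      by_contra hcon
      push Not at hcon
      have h1 : ∀ᵐ z ∂W, ∀ k : ℕ, ¬ ((k : ℝ≥0∞) + 1)⁻¹ ≤ 1 - ∑' n, q n z := by
        rw [ae_all_iff]
        intro k
        exact measure_eq_zero_iff_ae_notMem.mp (le_antisymm (hcon k) (zero_le))
      have h2 : ∀ᵐ z ∂W, ∑' n, q n z = 1 := by
        filter_upwards [h1] with z hz
        by_contra hlt
        have h3 : 1 - ∑' n, q n z ≠ 0 := by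
          rw [Ne, tsub_eq_zero_iff_le]
          exact fun h => hlt (le_antisymm (hqle z) h)
        obtain ⟨k, hk⟩ := ENNReal.exists_inv_nat_lt h3
        refine hz k (le_trans ?_ hk.le)
        exact ENNReal.inv_le_inv.mpr le_self_add
      rw [lintegral_congr_ae h2] at hQ
      simp at hQ
    have hH : ∃ l : ℕ, 0 < W {z | ((l : ℝ≥0∞) + 1)⁻¹ ≤ m.rnDeriv W z} := by
      by_contra hcon
      push Not at hcon
      have h1 : ∀ᵐ z ∂W, ∀ k : ℕ, ¬ ((k : ℝ≥0∞) + 1)⁻¹ ≤ m.rnDeriv W z := by
        rw [ae_all_iff]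
        intro k
        exact measure_eq_zero_iff_ae_notMem.mp (le_antisymm (hcon k) (zero_le))
      apply hne
      rw [← hmwd]
      have h2 : m.rnDeriv W =ᵐ[W] fun _ => 0 := by
        filter_upwards [h1] with z hz
        by_contra h3
        obtain ⟨k, hk⟩ := ENNReal.exists_inv_nat_lt h3
        refine hz k (le_trans ?_ hk.le)
        exact ENNReal.inv_le_inv.mpr le_self_add
      rw [withDensity_congr_ae h2]
      exact withDensity_zero
    obtain ⟨k, hk⟩ := hR
    obtain ⟨l, hl⟩ := hH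
    set R : Set Ω := {z | ((k : ℝ≥0∞) + 1)⁻¹ ≤ 1 - ∑' n, q n z} with hRdef
    set H : Set Ω := {z | ((l : ℝ≥0∞) + 1)⁻¹ ≤ m.rnDeriv W z} with hHdef
    have hRm : MeasurableSet R := measurableSet_le measurable_const (measurable_const.sub hqm)
    have hHm : MeasurableSet H := measurableSet_le measurable_const (Measure.measurable_rnDeriv _ _)
    set c : ℝ≥0∞ := min ((k : ℝ≥0∞) + 1)⁻¹ ((l : ℝ≥0∞) + 1)⁻¹ with hc
    have hc0 : 0 < c := by
      rw [hc, lt_min_iff]
      constructor
      · exact ENNReal.inv_pos.mpr (ENNReal.add_ne_top.mpr ⟨ENNReal.natCast_ne_top k,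
          ENNReal.one_ne_top⟩)
      · exact ENNReal.inv_pos.mpr (ENNReal.add_ne_top.mpr ⟨ENNReal.natCast_ne_top l,
          ENNReal.one_ne_top⟩)
    have hlow : ∀ n, c * W (R ∩ θ n ⁻¹' H) ≤ ∫⁻ z, q n z ∂W := by
      intro n
      have hmm : MeasurableSet (R ∩ θ n ⁻¹' H) := hRm.inter ((hθ n).measurable hHm)
      calc c * W (R ∩ θ n ⁻¹' H) = ∫⁻ _ in R ∩ θ n ⁻¹' H, c ∂W := by
            rw [lintegral_const, Measure.restrict_apply_univ]
        _ ≤ ∫⁻ z in R ∩ θ n ⁻¹' H, q n z ∂W := by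
            refine lintegral_mono_ae ?_
            rw [ae_restrict_iff' hmm]
            filter_upwards [(hθ n).quasiMeasurePreserving.ae (hden n)] with z hz hzm
            refine le_min ?_ ?_
            · exact (min_le_left _ _).trans (le_trans hzm.1 (hrn n z))
            · exact (min_le_right _ _).trans (le_trans hzm.2 hz)
        _ ≤ ∫⁻ z, q n z ∂W := setLIntegral_le_lintegral _ _
    have hsum : ∑' n, ∫⁻ z, q n z ∂W ≠ ∞ := by
      rw [← lintegral_tsum fun n => (hq n).aemeasurable]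
      exact (hQ.trans_le le_top).ne
    have hto := ENNReal.tendsto_atTop_zero_of_tsum_ne_top hsum
    set δ : ℝ := W.real R * W.real H / 2 with hδ
    have hR0 : 0 < W.real R := ENNReal.toReal_pos hk.ne' (measure_ne_top _ _)
    have hH0 : 0 < W.real H := ENNReal.toReal_pos hl.ne' (measure_ne_top _ _)
    have hδ0 : 0 < δ := by positivity
    have h1 := (hmix H hHm R hRm).eventually (lt_mem_nhds (show δ < W.real R * W.real H by
      rw [hδ]; have := mul_pos hR0 hH0; linarith))
    have h2 : 0 < c * ENNReal.ofReal δ :=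
      ENNReal.mul_pos hc0.ne' (ENNReal.ofReal_pos.mpr hδ0).ne'
    obtain ⟨n, hn1, hn2⟩ := (h1.and (hto.eventually (gt_mem_nhds h2))).exists
    have h3 : ENNReal.ofReal δ ≤ W (R ∩ θ n ⁻¹' H) := by
      rw [ENNReal.ofReal_le_iff_le_toReal (measure_ne_top _ _)]
      exact hn1.le
    have h4 : c * ENNReal.ofReal δ ≤ c * W (R ∩ θ n ⁻¹' H) := by gcongr
    exact absurd (h4.trans (hlow n)) (not_le.mpr hn2)
  refine ⟨q, hq, ?_, ?_⟩
  · have h1 : ∫⁻ z, ∑' n, q n z ∂W = 1 := by
      rw [hm0] at hmass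
      simpa using hmass
    have h2 : ∫⁻ z, (1 - ∑' n, q n z) ∂W = 0 := by
      rw [lintegral_sub hqm (by rw [h1]; exact ENNReal.one_ne_top) (ae_of_all _ hqle), h1]
      simp
    have h2' := (lintegral_eq_zero_iff (f := fun z => 1 - ∑' n, q n z)
      (measurable_const.sub hqm)).mp h2
    filter_upwards [h2'] with z hz
    have h3 : 1 - ∑' n, q n z = 0 := hz
    exact le_antisymm (hqle z) (tsub_eq_zero_iff_le.mp h3)
  · rw [hm0, zero_add] at hmadd
    exact hmadd

end

end Pool.Agent.Q210.PR
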