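import Mathlib

/-!
# The Borel sigma-field of the path space
-/

open Filter Topology Set MeasureTheory ProbabilityTheory
open scoped NNReal ENNReal

namespace Pool.Agent.Q210.PR

/-- The path space. -/
abbrev Path := C(ℝ≥0, ℝ)

/-- Its Borel sigma-field (for the topology of locally uniform convergence). -/
scoped instance instMSPath : MeasurableSpace Path := borel Path

scoped instance instBSPath : BorelSpace Path := ⟨rfl⟩

theorem measurable_eval (t : ℝ≥0) : Measurable fun w : Path => w t :=
  (continuous_eval_const t).measurable

/-- The coordinate map. -/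
def co (w : Path) : ℝ≥0 → ℝ := fun t => w t

theorem measurable_co : Measurable co := measurable_pi_lambda _ measurable_eval

theorem mapsTo_meas {K : Set ℝ≥0} (hK : IsCompact K) {U : Set ℝ} (hU : IsOpen U) :
    MeasurableSet[MeasurableSpace.comap co MeasurableSpace.pi] {f : Path | MapsTo f K U} := by
  have hev : ∀ t : ℝ≥0, @Measurable _ _ (MeasurableSpace.comap co MeasurableSpace.pi) _
      fun w : Path => w t := by
    intro t
    exact (measurable_pi_apply t).comp (comap_measurable co)
  rcases Set.eq_empty_or_nonempty Uᶜ with hUc | hUc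
  · have : U = univ := by rw [← compl_empty, ← hUc, compl_compl]
    subst this
    have : {f : Path | MapsTo f K univ} = univ := by
      ext f; exact ⟨fun _ => trivial, fun _ => mapsTo_univ _ _⟩
    rw [this]; exact MeasurableSet.univ
  · obtain ⟨D, hDc, hDd⟩ := TopologicalSpace.exists_countable_dense K
    have hcl : ∀ n : ℕ, IsClosed {y : ℝ | 1 / ((n : ℝ) + 1) ≤ Metric.infDist y Uᶜ} := fun n =>
      isClosed_le continuous_const (Metric.continuous_infDist_pt _)
    have heq : {f : Path | MapsTo f K U} = ⋃ n : ℕ, ⋂ q ∈ D,
        {f : Path | 1 / ((n : ℝ) + 1) ≤ Metric.infDist (f q) Uᶜ} := by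
      ext f
      simp only [mem_iUnion, mem_iInter]
      constructor
      · intro hf
        rcases K.eq_empty_or_nonempty with hKe | hKne
        · refine ⟨0, fun q _ => ?_⟩
          exact absurd q.2 (Set.eq_empty_iff_forall_notMem.mp hKe q.1)
        · obtain ⟨x, hx, hmin⟩ := hK.exists_isMinOn hKne
            (f := fun x => Metric.infDist (f x) Uᶜ)
            ((Metric.continuous_infDist_pt _).comp f.continuous).continuousOn
          have hpos : 0 < Metric.infDist (f x) Uᶜ := by
            rw [← hU.isClosed_compl.notMem_iff_infDist_pos hUc]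
            exact fun h => h (hf hx)
          obtain ⟨n, hn⟩ := exists_nat_one_div_lt hpos
          refine ⟨n, fun q _ => ?_⟩
          exact hn.le.trans (hmin q.2)
      · rintro ⟨n, hn⟩ x hx
        have h1 : IsClosed {x : K | 1 / ((n : ℝ) + 1) ≤ Metric.infDist (f x) Uᶜ} :=
          (hcl n).preimage (f.continuous.comp continuous_subtype_val)
        have h2 : D ⊆ {x : K | 1 / ((n : ℝ) + 1) ≤ Metric.infDist (f x) Uᶜ} := fun q hq => hn q hq
        have h3 : ∀ y : K, 1 / ((n : ℝ) + 1) ≤ Metric.infDist (f y) Uᶜ := by
          intro y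
          have h5 : y ∈ closure D := by rw [hDd.closure_eq]; trivial
          exact h1.closure_subset_iff.mpr h2 h5
        have h4 : 1 / ((n : ℝ) + 1) ≤ Metric.infDist (f x) Uᶜ := h3 ⟨x, hx⟩
        have h5 : 0 < Metric.infDist (f x) Uᶜ := lt_of_lt_of_le (by positivity) h4
        rw [← hU.isClosed_compl.notMem_iff_infDist_pos hUc] at h5
        exact not_not.mp h5
    rw [heq]
    refine MeasurableSet.iUnion fun n => MeasurableSet.biInter hDc fun q _ => ?_
    have : MeasurableSet {y : ℝ | 1 / ((n : ℝ) + 1) ≤ Metric.infDist y Uᶜ} :=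
      (hcl n).measurableSet
    exact hev q this

/-- The Borel sigma-field is generated by the evaluations. -/
theorem borel_path : (instMSPath : MeasurableSpace Path) =
    MeasurableSpace.comap co MeasurableSpace.pi := by
  apply le_antisymm
  · show borel Path ≤ _
    rw [borel_eq_generateFrom_of_subbasis ContinuousMap.compactOpen_eq]
    refine MeasurableSpace.generateFrom_le ?_
    rintro _ ⟨K, hK, U, hU, rfl⟩
    exact mapsTo_meas hK hU
  · exact measurable_co.comap_le

end Pool.Agent.Q210.PR
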