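import Mathlib
import Pool.Agent.Q210.PR.Meas

/-!
# The unit shift preserves Wiener measure and is mixing
-/

open Filter Topology Set MeasureTheory ProbabilityTheory
open scoped NNReal ENNReal
open ProbabilityTheory.BrownianReal

namespace Pool.Agent.Q210.PR

noncomputable section

theorem measurable_path_iff {α : Type*} [MeasurableSpace α] {f : α → Path} :
    Measurable f ↔ ∀ t, Measurable fun a => f a t := by
  constructor
  · exact fun h t => (measurable_eval t).comp h
  · intro h
    rw [borel_path, measurable_comap_iff]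
    exact measurable_pi_lambda _ h

/-- The coordinate process is a Brownian motion under `W`: `W` is the Wiener measure. -/
def IsWiener (W : Measure Path) : Prop := IsBrownianReal (fun (t : ℝ≥0) (w : Path) => w t) W

/-- The shift by `n`. -/
def sh (n : ℕ) (w : Path) : Path := ⟨fun t => w ((n : ℝ≥0) + t) - w (n : ℝ≥0), by fun_prop⟩

theorem measurable_sh (n : ℕ) : Measurable (sh n) :=
  measurable_path_iff.mpr fun _ => (measurable_eval _).sub (measurable_eval _)

theorem law_unique {μ ν : Measure Path} (hμ : IsPreBrownianReal (fun (t : ℝ≥0) (w : Path) => w t) μ)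
    (hν : IsPreBrownianReal (fun (t : ℝ≥0) (w : Path) => w t) ν) : μ = ν := by
  have hlim : ∀ {μ : Measure Path}, IsPreBrownianReal (fun (t : ℝ≥0) (w : Path) => w t) μ →
      IsProjectiveLimit (μ.map co) projectiveFamily := by
    intro μ hμ I
    rw [Measure.map_map (Finset.measurable_restrict I) measurable_co, ← (hμ.hasLaw I).map_eq]
    rfl
  have h : μ.map co = ν.map co := (hlim hμ).unique (hlim hν)
  ext S hS
  rw [borel_path] at hS
  obtain ⟨S', hS', rfl⟩ := hS
  rw [← Measure.map_apply measurable_co hS', ← Measure.map_apply measurable_co hS', h]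

theorem map_sh {W : Measure Path} (hW : IsWiener W) (n : ℕ) : W.map (sh n) = W := by
  refine law_unique ⟨fun I => ?_⟩ hW.toIsPreBrownianReal
  have h1 := (hW.toIsPreBrownianReal.shift (n : ℝ≥0)).hasLaw I
  have hm : Measurable fun w : Path => I.restrict fun t : ℝ≥0 => w t :=
    (Finset.measurable_restrict I).comp measurable_co
  refine ⟨hm.aemeasurable, ?_⟩
  rw [Measure.map_map hm (measurable_sh n), ← h1.map_eq]
  rfl

theorem mp_sh {W : Measure Path} (hW : IsWiener W) (n : ℕ) : MeasurePreserving (sh n) W W :=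
  ⟨measurable_sh n, map_sh hW n⟩

set_option warn.classDefReducibility false in
/-- The past up to time `T`. -/
def FT (T : ℕ) : MeasurableSpace Path :=
  MeasurableSpace.comap (fun (w : Path) (t : Iic (T : ℝ≥0)) => w t) MeasurableSpace.pi

theorem FT_le (T : ℕ) : FT T ≤ instMSPath :=
  Measurable.comap_le (measurable_pi_lambda _ fun _ => measurable_eval _)

theorem FT_mono {S T : ℕ} (h : S ≤ T) : FT S ≤ FT T := by
  rintro _ ⟨R, hR, rfl⟩
  have h' : (S : ℝ≥0) ≤ T := by exact_mod_cast h
  refine ⟨(fun (x : Iic (T : ℝ≥0) → ℝ) (t : Iic (S : ℝ≥0)) => x ⟨t, le_trans t.2 h'⟩) ⁻¹' R,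
    (measurable_pi_lambda _ fun _ => measurable_pi_apply _) hR, rfl⟩

/-- The generating pi-system. -/
def cyl : Set (Set Path) := {R | ∃ T : ℕ, MeasurableSet[FT T] R}

theorem isPiSystem_cyl : IsPiSystem cyl := by
  rintro A ⟨S, hA⟩ B ⟨T, hB⟩ _
  exact ⟨max S T, MeasurableSet.inter (FT_mono (le_max_left S T) _ hA)
    (FT_mono (le_max_right S T) _ hB)⟩

theorem borel_cyl : (instMSPath : MeasurableSpace Path) = MeasurableSpace.generateFrom cyl := by
  apply le_antisymm
  · rw [borel_path]
    have h : @Measurable _ _ (MeasurableSpace.generateFrom cyl) _ co := by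
      refine @measurable_pi_lambda _ _ _ (MeasurableSpace.generateFrom cyl) _ _ fun t => ?_
      intro B hB
      obtain ⟨T, hT⟩ := exists_nat_ge t
      refine MeasurableSpace.measurableSet_generateFrom ⟨T, ?_⟩
      exact ⟨(fun x : Iic (T : ℝ≥0) → ℝ => x ⟨t, hT⟩) ⁻¹' B, (measurable_pi_apply _) hB, rfl⟩
    exact h.comap_le
  · refine MeasurableSpace.generateFrom_le ?_
    rintro R ⟨T, hR⟩
    exact FT_le T _ hR

theorem indep_cyl {W : Measure Path} (hW : IsWiener W) {H R : Set Path} (hH : MeasurableSet H)
    {T n : ℕ} (hTn : T ≤ n) (hR : MeasurableSet[FT T] R) : W (R ∩ sh n ⁻¹' H) = W R * W H := by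
  have h1 := hW.toIsPreBrownianReal.indepFun_shift (n : ℝ≥0)
  obtain ⟨R', hR', rfl⟩ := FT_mono hTn _ hR
  have hH2 := hH
  rw [borel_path] at hH2
  obtain ⟨H', hH', hHeq⟩ := hH2
  have h2 := h1.measure_inter_preimage_eq_mul H' R' hH' hR'
  have e1 : sh n ⁻¹' H = (fun (w : Path) (t : ℝ≥0) => w ((n : ℝ≥0) + t) - w (n : ℝ≥0)) ⁻¹' H' := by
    rw [← hHeq]; rfl
  have e2 : W (sh n ⁻¹' H) = W H := (mp_sh hW n).measure_preimage hH.nullMeasurableSet
  rw [inter_comm, e1, h2, ← e1, e2, mul_comm]

theorem mixing {W : Measure Path} (hW : IsWiener W) {H : Set Path} (hH : MeasurableSet H)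
    {R : Set Path} (hR : MeasurableSet R) :
    Tendsto (fun n => W.real (R ∩ sh n ⁻¹' H)) atTop (𝓝 (W.real R * W.real H)) := by
  have : IsProbabilityMeasure W := hW.isGaussianProcess.isProbabilityMeasure
  have hHn : ∀ n, W.real (sh n ⁻¹' H) = W.real H := fun n =>
    congrArg ENNReal.toReal ((mp_sh hW n).measure_preimage hH.nullMeasurableSet)
  have hHm : ∀ n, MeasurableSet (sh n ⁻¹' H) := fun n => measurable_sh n hH
  induction R, hR using MeasurableSpace.induction_on_inter borel_cyl isPiSystem_cyl with
  | empty => simp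
  | basic R hR =>
    obtain ⟨T, hR⟩ := hR
    refine tendsto_const_nhds.congr' ?_
    filter_upwards [eventually_ge_atTop T] with n hn
    rw [measureReal_def, measureReal_def, measureReal_def, indep_cyl hW hH hn hR,
      ENNReal.toReal_mul]
  | compl R hR ih =>
    have h1 : ∀ n, W.real (Rᶜ ∩ sh n ⁻¹' H) = W.real H - W.real (R ∩ sh n ⁻¹' H) := by
      intro n
      have := measureReal_inter_add_sdiff (μ := W) (s := sh n ⁻¹' H) hR
      rw [hHn n] at this
      have e1 : sh n ⁻¹' H \ R = Rᶜ ∩ sh n ⁻¹' H := by rw [sdiff_eq, inter_comm]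
      rw [e1, inter_comm] at this
      linarith
    simp only [h1]
    have h2 : W.real Rᶜ * W.real H = W.real H - W.real R * W.real H := by
      rw [measureReal_compl hR, probReal_univ]; ring
    rw [h2]
    exact tendsto_const_nhds.sub ih
  | iUnion f hd hf ih =>
    have hs : Summable fun i => W.real (f i) := by
      have h1 : ∑' i, W (f i) ≠ ∞ := by
        rw [← measure_iUnion hd hf]
        exact measure_ne_top _ _
      exact ENNReal.summable_toReal h1
    have e1 : ∀ n, W.real ((⋃ i, f i) ∩ sh n ⁻¹' H) = ∑' i, W.real (f i ∩ sh n ⁻¹' H) := by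
      intro n
      rw [iUnion_inter, measureReal_def, measure_iUnion
        (hd.mono fun i j h => h.mono inter_subset_left inter_subset_left)
        (fun i => (hf i).inter (hHm n)), ENNReal.tsum_toReal_eq fun i => measure_ne_top _ _]
      rfl
    have e2 : W.real (⋃ i, f i) * W.real H = ∑' i, W.real (f i) * W.real H := by
      rw [tsum_mul_right, measureReal_def, measure_iUnion hd hf,
        ENNReal.tsum_toReal_eq fun i => measure_ne_top _ _]
      rfl
    simp only [e1, e2]
    refine tendsto_tsum_of_dominated_convergence (bound := fun i => W.real (f i)) hs ih ?_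
    refine Eventually.of_forall fun n i => ?_
    rw [Real.norm_eq_abs, abs_of_nonneg measureReal_nonneg]
    exact measureReal_mono inter_subset_left

end

end Pool.Agent.Q210.PR
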